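import Mathlib

open Set Filter Topology

namespace Pool.Agent.Results.MP_3edc48_gt.MinSizeNonM

/-- A set `A` converges to the point `x`: it is infinite, does not contain `x`, and every
neighbourhood of `x` contains all but finitely many points of `A`. -/
def ConvergesTo {Y : Type} [TopologicalSpace Y] (A : Set Y) (x : Y) : Prop :=
  A.Infinite ∧ x ∉ A ∧ ∀ U ∈ 𝓝 x, (A \ U).Finite

/-- The family of all sets having `x` in their closure but not as an element. -/
def OmegaAt {Y : Type} [TopologicalSpace Y] (x : Y) : Set (Set Y) :=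
  {A | x ∈ closure A \ A}

/-- The family of all countably infinite sets converging to `x`. -/
def GammaAt {Y : Type} [TopologicalSpace Y] (x : Y) : Set (Set Y) :=
  {A | Cardinal.mk A = Cardinal.aleph0 ∧ ConvergesTo A x}

/-- The kappa-Frechet property: for each point `x`, each open member of `OmegaAt x` contains a
member of `GammaAt x`. -/
def KappaFrechet (Y : Type) [TopologicalSpace Y] : Prop :=
  ∀ x : Y, ∀ A ∈ OmegaAt x, IsOpen A → ∃ B ∈ GammaAt x, B ⊆ A

/-- The space of continuous real functions on `X`, as a subspace of the product of copies of the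
real line indexed by `X`, that is, with the topology of pointwise convergence. -/
abbrev Cp (X : Set ℝ) : Type := {f : X → ℝ // Continuous f}

/-- The least cardinality of a nonmeagre set of reals. -/
noncomputable def nonM : Cardinal.{0} :=
  sInf {c | ∃ X : Set ℝ, Cardinal.mk X = c ∧ ¬ IsMeagre X}

lemma exists_cyl {U : Set (ℕ → Bool)} (hU : IsOpen U) {u : ℕ → Bool} (hu : u ∈ U) (m : ℕ) :
    ∃ n ≥ m, ∀ x : ℕ → Bool, (∀ j < n, x j = u j) → x ∈ U := by
  obtain ⟨s, ⟨x, n, rfl⟩, hus, hsU⟩ :=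
    (PiNat.isTopologicalBasis_cylinders (E := fun _ => Bool)).exists_subset_of_mem_open hu hU
  refine ⟨max n m, le_max_right _ _, fun y hy => hsU ?_⟩
  rw [PiNat.mem_cylinder_iff] at hus ⊢
  intro i hi
  rw [hy i (lt_of_lt_of_le hi (le_max_left _ _)), hus i hi]

lemma step_aux {U : Set (ℕ → Bool)} (hU : IsOpen U) (hd : Dense U) (m : ℕ)
    (T : Finset (Fin m → Bool)) :
    ∃ n ≥ m, ∃ w : ℕ → Bool, ∀ s ∈ T, ∀ x : ℕ → Bool, (∀ j : Fin m, x j = s j) →
      (∀ j, m ≤ j → j < n → x j = w j) → x ∈ U := by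
  induction T using Finset.induction_on with
  | empty => exact ⟨m, le_rfl, fun _ => true, by simp⟩
  | insert s T hs ih =>
    obtain ⟨n, hn, w, hw⟩ := ih
    let y : ℕ → Bool := fun j => if h : j < m then s ⟨j, h⟩ else w j
    obtain ⟨u, hu1, hu2⟩ := hd.inter_open_nonempty (PiNat.cylinder y n)
      (PiNat.isOpen_cylinder _ y n) ⟨y, PiNat.self_mem_cylinder y n⟩
    obtain ⟨n', hn', hcyl⟩ := exists_cyl hU hu2 n
    rw [PiNat.mem_cylinder_iff] at hu1
    refine ⟨n', hn.trans hn', u, fun t ht x hx1 hx2 => ?_⟩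
    rcases Finset.mem_insert.1 ht with rfl | ht
    · apply hcyl
      intro j hj
      by_cases h : j < m
      · rw [hu1 j (lt_of_lt_of_le h hn)]
        simp only [y, h, dif_pos]
        exact hx1 ⟨j, h⟩
      · exact hx2 j (not_lt.1 h) hj
    · refine hw t ht x hx1 (fun j hj1 hj2 => ?_)
      rw [hx2 j hj1 (lt_of_lt_of_le hj2 hn'), hu1 j hj2]
      simp [y, not_lt.2 hj1]

lemma step {U : Set (ℕ → Bool)} (hU : IsOpen U) (hd : Dense U) (m : ℕ) :
    ∃ n > m, ∃ w : ℕ → Bool, ∀ x : ℕ → Bool, (∀ j, m ≤ j → j < n → x j = w j) → x ∈ U := by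
  obtain ⟨n, hn, w, hw⟩ := step_aux hU hd m Finset.univ
  exact ⟨n + 1, by omega, w, fun x hx => hw (fun j => x j) (Finset.mem_univ _) x
    (fun _ => rfl) (fun j h1 h2 => hx j h1 (by omega))⟩

lemma exists_block {i : ℕ → ℕ} (hi : StrictMono i) (h0 : i 0 = 0) (j : ℕ) :
    ∃ n, i n ≤ j ∧ j < i (n + 1) := by
  induction j with
  | zero => exact ⟨0, by omega, by have := hi (Nat.lt_add_one 0); omega⟩
  | succ j ih =>
    obtain ⟨n, h1, h2⟩ := ih
    by_cases h : j + 1 < i (n + 1)
    · exact ⟨n, by omega, h⟩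
    · refine ⟨n + 1, by omega, ?_⟩
      have := hi (Nat.lt_add_one (n + 1))
      omega

/-- A meagre subset of the Cantor space is captured by an interval partition and one point. -/
lemma meagre_capture {Z : Set (ℕ → Bool)} (hZ : IsMeagre Z) :
    ∃ i : ℕ → ℕ, StrictMono i ∧ ∃ z : ℕ → Bool, ∀ x ∈ Z,
      ∀ᶠ n in atTop, ∃ j, i n ≤ j ∧ j < i (n + 1) ∧ x j ≠ z j := by
  classical
  rw [IsMeagre, mem_residual_iff] at hZ
  obtain ⟨S, hSo, hSd, hSc, hSZ⟩ := hZ
  obtain ⟨V, hV⟩ := (hSc.insert univ).exists_eq_range (insert_nonempty _ _)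
  have hVmem : ∀ n, V n ∈ insert univ S := fun n => hV ▸ mem_range_self n
  have hVo : ∀ n, IsOpen (V n) := by
    intro n
    rcases hVmem n with h | h
    · rw [h]; exact isOpen_univ
    · exact hSo _ h
  have hVd : ∀ n, Dense (V n) := by
    intro n
    rcases hVmem n with h | h
    · rw [h]; exact dense_univ
    · exact hSd _ h
  let U : ℕ → Set (ℕ → Bool) := fun n => Nat.rec (V 0) (fun k W => W ∩ V (k + 1)) n
  have hU0 : U 0 = V 0 := rfl
  have hUs : ∀ n, U (n + 1) = U n ∩ V (n + 1) := fun n => rfl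
  have hUo : ∀ n, IsOpen (U n) := by
    intro n
    induction n with
    | zero => exact hVo 0
    | succ n ih => rw [hUs]; exact ih.inter (hVo _)
  have hUd : ∀ n, Dense (U n) := by
    intro n
    induction n with
    | zero => exact hVd 0
    | succ n ih => rw [hUs]; exact ih.inter_of_isOpen_right (hVd _) (hVo _)
  have hUanti : Antitone U := antitone_nat_of_succ_le (fun n => by rw [hUs]; exact inter_subset_left)
  have hUV : ∀ n, U n ⊆ V n := by
    intro n
    cases n with
    | zero => exact subset_rfl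
    | succ n => rw [hUs]; exact inter_subset_right
  choose nx hnx w hw using fun (n m : ℕ) => step (hUo n) (hUd n) m
  let i : ℕ → ℕ := fun n => Nat.rec 0 (fun k a => nx k a) n
  have his : ∀ n, i (n + 1) = nx n (i n) := fun n => rfl
  have himono : StrictMono i := strictMono_nat_of_lt_succ (fun n => by rw [his]; exact hnx n (i n))
  -- the point
  have hex : ∀ j, ∃ n, i n ≤ j ∧ j < i (n + 1) := by
    exact exists_block himono rfl
  choose N hN1 hN2 using hex
  have hNuniq : ∀ n j, i n ≤ j → j < i (n + 1) → N j = n := by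
    intro n j h1 h2
    have a1 := hN1 j
    have a2 := hN2 j
    have b1 : N j < n + 1 := himono.lt_iff_lt.1 (lt_of_le_of_lt a1 h2)
    have b2 : n < N j + 1 := himono.lt_iff_lt.1 (lt_of_le_of_lt h1 a2)
    omega
  refine ⟨i, himono, fun j => w (N j) (i (N j)) j, fun x hx => ?_⟩
  have hx1 : x ∉ ⋂₀ S := fun h => hSZ h hx
  rw [mem_sInter] at hx1
  push Not at hx1
  obtain ⟨t, htS, hxt⟩ := hx1
  have : t ∈ range V := by rw [← hV]; exact mem_insert_of_mem _ htS
  obtain ⟨n0, rfl⟩ := this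
  filter_upwards [eventually_ge_atTop n0] with n hn
  by_contra! hcon
  have : x ∈ U n := by
    apply hw n (i n) x
    intro j h1 h2
    have := hcon j h1 (by rw [his]; exact h2)
    rw [this, hNuniq n j h1 (by rw [his]; exact h2)]
  exact hxt (hUV n0 (hUanti hn this))

lemma isMeagre_of_lt {X : Set ℝ} (h : Cardinal.mk X < nonM) : IsMeagre X := by
  by_contra hX
  exact absurd (csInf_le' (s := {c | ∃ X : Set ℝ, Cardinal.mk X = c ∧ ¬ IsMeagre X}) ⟨X, rfl, hX⟩)
    (not_le.2 h)

/-- The binary expansion map. -/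
noncomputable def bin (x : ℕ → Bool) : ℝ := Real.ofDigits (fun j => (if x j then 1 else 0 : Fin 2))

lemma continuous_bin : Continuous bin := by
  unfold bin
  refine Real.continuous_ofDigits.comp (continuous_pi fun j => ?_)
  exact (continuous_of_discreteTopology (f := fun b : Bool => (if b then 1 else 0 : Fin 2))).comp
    (continuous_apply j)

lemma bin_cyl (y : ℕ → Bool) (n : ℕ) : ∃ a b : ℝ, a < b ∧ Icc a b ⊆ bin '' (PiNat.cylinder y n) := by
  set c : ℝ := ∑ i ∈ Finset.range n, Real.ofDigitsTerm (fun j => (if y j then 1 else 0 : Fin 2)) i with hc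
  refine ⟨c, c + ((2 : ℝ) ^ n)⁻¹, by have : (0:ℝ) < ((2 : ℝ) ^ n)⁻¹ := by positivity
                                     linarith, ?_⟩
  intro t ht
  have h2 : (0 : ℝ) < 2 ^ n := by positivity
  have hs : (t - c) * 2 ^ n ∈ Icc (0:ℝ) 1 := by
    constructor
    · have := ht.1
      have : 0 ≤ t - c := by linarith
      positivity
    · have := ht.2
      have h3 : t - c ≤ ((2 : ℝ) ^ n)⁻¹ := by linarith
      calc (t - c) * 2 ^ n ≤ ((2 : ℝ) ^ n)⁻¹ * 2 ^ n := by gcongr
        _ = 1 := inv_mul_cancel₀ h2.ne'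
  obtain ⟨d, -, hd⟩ := Real.ofDigits_SurjOn (b := 2) one_lt_two hs
  refine ⟨fun j => if j < n then y j else decide (d (j - n) = 1), ?_, ?_⟩
  · rw [PiNat.mem_cylinder_iff]
    intro i hi
    simp [hi]
  · unfold bin
    rw [Real.ofDigits_eq_sum_add_ofDigits _ n]
    have e1 : (fun i => (if (if i + n < n then y (i + n) else decide (d (i + n - n) = 1)) = true
        then 1 else 0 : Fin 2)) = d := by
      funext i
      have : ¬ (i + n < n) := by omega
      simp only [this, if_false, Nat.add_sub_cancel, decide_eq_true_eq]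
      have := (d i).isLt
      split_ifs with h
      · exact h.symm
      · omega
    rw [e1, hd]
    have e2 : ∑ i ∈ Finset.range n, Real.ofDigitsTerm (fun j => (if (if j < n then y j else
        decide (d (j - n) = 1)) = true then 1 else 0 : Fin 2)) i = c := by
      rw [hc]
      refine Finset.sum_congr rfl (fun i hi => ?_)
      rw [Finset.mem_range] at hi
      simp [Real.ofDigitsTerm, hi]
    rw [e2]
    push_cast
    field_simp
    ring

lemma meagre_cantor {Z : Set (ℕ → Bool)} (h : Cardinal.mk Z < nonM) : IsMeagre Z := by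
  have h1 : Cardinal.mk (bin '' Z) < nonM := lt_of_le_of_lt Cardinal.mk_image_le h
  have h2 := isMeagre_of_lt h1
  rw [IsMeagre, mem_residual_iff] at h2 ⊢
  obtain ⟨S, hSo, hSd, hSc, hSZ⟩ := h2
  refine ⟨(fun t => bin ⁻¹' t) '' S, ?_, ?_, hSc.image _, ?_⟩
  · rintro _ ⟨t, ht, rfl⟩
    exact (hSo t ht).preimage continuous_bin
  · rintro _ ⟨t, ht, rfl⟩
    rw [dense_iff_inter_open]
    rintro U hU ⟨y, hy⟩
    obtain ⟨s, ⟨x, n, rfl⟩, hus, hsU⟩ :=
      (PiNat.isTopologicalBasis_cylinders (E := fun _ => Bool)).exists_subset_of_mem_open hy hU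
    obtain ⟨a, b, hab, hsub⟩ := bin_cyl x n
    obtain ⟨r, hr1, hr2⟩ := (hSd t ht).inter_open_nonempty (Ioo a b) isOpen_Ioo (nonempty_Ioo.2 hab)
    obtain ⟨u, hu, rfl⟩ := hsub (Ioo_subset_Icc_self hr1)
    exact ⟨u, hsU hu, hr2⟩
  · intro x hx hxZ
    refine hSZ (a := bin x) ?_ (mem_image_of_mem _ hxZ)
    intro t ht
    exact hx _ ⟨t, ht, rfl⟩

lemma nonM_mem : ∃ X : Set ℝ, Cardinal.mk X = nonM ∧ ¬ IsMeagre X := by
  have : (sInf {c : Cardinal.{0} | ∃ X : Set ℝ, Cardinal.mk X = c ∧ ¬ IsMeagre X}) ∈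
      {c : Cardinal.{0} | ∃ X : Set ℝ, Cardinal.mk X = c ∧ ¬ IsMeagre X} := by
    apply csInf_mem
    exact ⟨_, univ, rfl, not_isMeagre_of_isOpen isOpen_univ ⟨0, trivial⟩⟩
  exact this

lemma countable_meagre {X : Set ℝ} (hX : X.Countable) : IsMeagre X := by
  have h : X = ⋃ x ∈ X, {x} := by simp
  rw [h]
  refine isMeagre_biUnion hX (fun x hx => ?_)
  apply IsNowhereDense.isMeagre
  rw [IsNowhereDense, closure_singleton, interior_singleton]

lemma aleph0_le_nonM : Cardinal.aleph0 ≤ nonM := by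
  obtain ⟨X, hX, hm⟩ := nonM_mem
  rw [← hX]
  by_contra hcon
  apply hm
  apply countable_meagre
  rw [← Cardinal.le_aleph0_iff_set_countable]
  exact (not_le.1 hcon).le

lemma exists_bits (z : ℕ → Bool) (m : ℕ) :
    ∃ c, 2 ^ m ≤ c ∧ c < 2 ^ (m + 1) ∧ ∀ j < m, Nat.testBit c j = z j := by
  refine ⟨Nat.ofBits (fun j : Fin (m + 1) => if (j : ℕ) < m then z j else true), ?_,
    Nat.ofBits_lt_two_pow _, ?_⟩
  · apply Nat.ge_two_pow_of_testBit
    rw [Nat.testBit_ofBits_lt _ m (Nat.lt_succ_self m)]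
    simp
  · intro j hj
    rw [Nat.testBit_ofBits_lt _ j (by omega)]
    simp [hj]

lemma exists_sep {S : Type} [MetricSpace S] (T : Finset S) :
    ∃ ε > 0, ∀ a ∈ T, ∀ b ∈ T, a ≠ b → 2 * ε ≤ dist a b := by
  classical
  by_cases h : ((T ×ˢ T).filter (fun p => p.1 ≠ p.2)).Nonempty
  · obtain ⟨p, hp, hmin⟩ := Finset.exists_min_image _ (fun p : S × S => dist p.1 p.2) h
    rw [Finset.mem_filter] at hp
    refine ⟨dist p.1 p.2 / 2, by have := dist_pos.2 hp.2; linarith, fun a ha b hb hab => ?_⟩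
    have := hmin (a, b) (by simp [ha, hb, hab])
    simp only at this
    linarith
  · refine ⟨1, one_pos, fun a ha b hb hab => absurd ?_ h⟩
    exact ⟨(a, b), by simp [ha, hb, hab]⟩

lemma eventually_notMem {S : Type} (A : ℕ → Finset S)
    (hA : Pairwise (fun m n => Disjoint (A m) (A n))) (x : S) : ∀ᶠ k in atTop, x ∉ A k := by
  by_cases h : ∃ k, x ∈ A k
  · obtain ⟨k0, hk0⟩ := h
    filter_upwards [eventually_gt_atTop k0] with k hk hx
    exact Finset.disjoint_left.1 (hA hk.ne) hk0 hx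
  · push Not at h
    exact Eventually.of_forall h

/-- an unbounded family of functions gives an unbounded family of interval partitions -/
lemma exists_partition (g : ℕ → ℕ) : ∃ h : ℕ → ℕ, StrictMono h ∧ h 0 = 0 ∧
    ∀ k, ∀ j ≤ h k, g j < h (k + 1) := by
  let h : ℕ → ℕ := fun n => Nat.rec 0 (fun _ a => a + 1 + ∑ j ∈ Finset.range (a + 1), g j) n
  have hs : ∀ n, h (n + 1) = h n + 1 + ∑ j ∈ Finset.range (h n + 1), g j := fun n => rfl
  refine ⟨h, strictMono_nat_of_lt_succ (fun n => by rw [hs]; omega), rfl, fun k j hj => ?_⟩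
  rw [hs]
  have := Finset.single_le_sum (f := g) (fun i _ => Nat.zero_le _)
    (Finset.mem_range.2 (Nat.lt_succ_of_le hj))
  simp only [Nat.succ_eq_add_one] at this
  omega

lemma partition_unbounded {S : Type} (g h : S → ℕ → ℕ) (hm : ∀ x, StrictMono (h x))
    (h0 : ∀ x, h x 0 = 0) (hg : ∀ x k, ∀ j ≤ h x k, g x j < h x (k + 1))
    (hub : ¬ ∃ f : ℕ → ℕ, ∀ x, ∀ᶠ n in atTop, g x n ≤ f n) (i : ℕ → ℕ) (hi : StrictMono i) :
    ∃ x, ∃ᶠ k in atTop, ∃ n, h x k ≤ i n ∧ i (n + 1) ≤ h x (k + 1) := by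
  by_contra hcon
  apply hub
  refine ⟨fun m => i (m + 2), fun x => ?_⟩
  have hx : ¬ ∃ᶠ k in atTop, ∃ n, h x k ≤ i n ∧ i (n + 1) ≤ h x (k + 1) :=
    fun h' => hcon ⟨x, h'⟩
  rw [not_frequently, eventually_atTop] at hx
  obtain ⟨k0, hk0⟩ := hx
  filter_upwards [eventually_ge_atTop (h x k0)] with m hm1
  by_contra! hlt
  obtain ⟨k, hk1, hk2⟩ := exists_block (hm x) (h0 x) m
  have hk : k0 ≤ k := by
    have : h x k0 < h x (k + 1) := lt_of_le_of_lt hm1 hk2
    have := (hm x).lt_iff_lt.1 this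
    omega
  have h1 : g x m < h x (k + 2) := hg x (k + 1) m hk2.le
  have him : m ≤ i m := hi.id_le m
  rcases le_total (h x (k + 1)) (i (m + 1)) with h2 | h2
  · exact hk0 (k + 1) (by omega) ⟨m + 1, h2, by
      have : i (m + 1 + 1) = i (m + 2) := rfl
      have : h x (k + 1 + 1) = h x (k + 2) := rfl
      omega⟩
  · exact hk0 k hk ⟨m, by omega, h2⟩

theorem selection {S : Type} [MetricSpace S] (hS : Cardinal.mk S < nonM) (A : ℕ → Finset S)
    (hA : Pairwise (fun m n => Disjoint (A m) (A n))) :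
    ∃ n : ℕ → ℕ, StrictMono n ∧ ∃ δ : ℕ → ℝ, (∀ k, 0 < δ k) ∧
      ∀ x : S, ∀ᶠ k in atTop, ∀ a ∈ A (n k), δ k ≤ dist x a := by
  classical
  have hg : ∀ (x : S) (n : ℕ), ∃ g : ℕ, x ∉ A n → ∀ a ∈ A n, 1 / ((g : ℝ) + 1) ≤ dist x a := by
    intro x n
    by_cases hx : x ∈ A n
    · exact ⟨0, fun h => absurd hx h⟩
    · have h1 : ((A n : Set S)ᶜ) ∈ 𝓝 x := (A n).finite_toSet.isClosed.isOpen_compl.mem_nhds hx
      obtain ⟨ε, hε, hball⟩ := Metric.mem_nhds_iff.1 h1
      obtain ⟨g, hg⟩ := exists_nat_one_div_lt hε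
      refine ⟨g, fun _ a ha => ?_⟩
      by_contra! hlt
      have : a ∈ Metric.ball x ε := by
        rw [Metric.mem_ball, dist_comm]
        exact hlt.trans hg
      exact hball this ha
  choose g hg using hg
  by_cases hb : ∃ f : ℕ → ℕ, ∀ x, ∀ᶠ n in atTop, g x n ≤ f n
  · obtain ⟨f, hf⟩ := hb
    refine ⟨id, strictMono_id, fun k => 1 / ((f k : ℝ) + 1), fun k => by positivity, fun x => ?_⟩
    filter_upwards [hf x, eventually_notMem A hA x] with k h1 h2 a ha
    refine le_trans ?_ (hg x k h2 a ha)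
    gcongr
  · choose h hm h0 hh using fun x => exists_partition (g x)
    -- separated neighbourhoods
    have hρ : ∀ m : ℕ, ∃ ρ > 0, ∀ a ∈ (Finset.range (2 ^ (m + 1))).biUnion A,
        ∀ b ∈ (Finset.range (2 ^ (m + 1))).biUnion A, a ≠ b → 2 * ρ ≤ dist a b :=
      fun m => exists_sep _
    choose ρ hρ0 hρ using hρ
    have hc : ∀ (y : S) (m : ℕ), ∃ c : ℕ, ∀ i < 2 ^ (m + 1),
        (∃ a ∈ A i, dist y a < ρ m) → i = c := by
      intro y m
      by_cases hex : ∃ i < 2 ^ (m + 1), ∃ a ∈ A i, dist y a < ρ m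
      · obtain ⟨c, hc, b, hb, hyb⟩ := hex
        refine ⟨c, fun i hi ⟨a, ha, hya⟩ => ?_⟩
        by_contra hne
        have hab : a ≠ b := by
          rintro rfl
          exact Finset.disjoint_left.1 (hA hne) ha hb
        have h1 := hρ m a (Finset.mem_biUnion.2 ⟨i, Finset.mem_range.2 hi, ha⟩) b
          (Finset.mem_biUnion.2 ⟨c, Finset.mem_range.2 hc, hb⟩) hab
        have h2 := dist_triangle_left a b y
        linarith
      · exact ⟨0, fun i hi h' => absurd ⟨i, hi, h'⟩ hex⟩
    choose c hc using hc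
    choose K hK1 hK2 using fun (x : S) (j : ℕ) => exists_block (hm x) (h0 x) j
    have hKu : ∀ x k j, h x k ≤ j → j < h x (k + 1) → K x j = k := by
      intro x k j h1 h2
      have b1 := (hm x).lt_iff_lt.1 (lt_of_le_of_lt (hK1 x j) h2)
      have b2 := (hm x).lt_iff_lt.1 (lt_of_le_of_lt h1 (hK2 x j))
      omega
    let φ : S × S → ℕ → Bool := fun p j => Nat.testBit (c p.2 (h p.1 (K p.1 j + 1))) j
    have hZ : IsMeagre (range φ) := by
      apply meagre_cantor
      refine lt_of_le_of_lt Cardinal.mk_range_le ?_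
      rw [Cardinal.mk_prod, Cardinal.lift_id]
      exact Cardinal.mul_lt_of_lt aleph0_le_nonM hS hS
    obtain ⟨i, hi, z, hz⟩ := meagre_capture hZ
    obtain ⟨x, hx⟩ := partition_unbounded g h hm h0 hh hb i hi
    obtain ⟨κ, hκ, hκ2⟩ := extraction_of_frequently_atTop hx
    choose N hN1 hN2 using hκ2
    choose b hb1 hb2 hb3 using exists_bits z
    refine ⟨fun l => b (h x (κ l + 1)), strictMono_nat_of_lt_succ (fun l => ?_),
      fun l => ρ (h x (κ l + 1)), fun l => hρ0 _, fun y => ?_⟩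
    · have h1 : κ l < κ (l + 1) := hκ (Nat.lt_add_one l)
      have h2 : h x (κ l + 1) < h x (κ (l + 1) + 1) := hm x (by omega)
      calc b (h x (κ l + 1)) < 2 ^ (h x (κ l + 1) + 1) := hb2 _
        _ ≤ 2 ^ (h x (κ (l + 1) + 1)) := Nat.pow_le_pow_right (by norm_num) h2
        _ ≤ b (h x (κ (l + 1) + 1)) := hb1 _
    · have h1 := hz (φ (x, y)) (mem_range_self _)
      rw [eventually_atTop] at h1
      obtain ⟨n0, hn0⟩ := h1
      filter_upwards [eventually_ge_atTop (i n0)] with l hl a ha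
      by_contra! hlt
      have h2 : l ≤ i (N l) := by
        calc l ≤ κ l := hκ.id_le l
          _ ≤ h x (κ l) := (hm x).id_le _
          _ ≤ i (N l) := hN1 l
      have h3 : n0 ≤ N l := hi.le_iff_le.1 (hl.trans h2)
      obtain ⟨j, hj1, hj2, hj3⟩ := hn0 (N l) h3
      apply hj3
      have hj4 : K x j = κ l := hKu x (κ l) j ((hN1 l).trans hj1) (lt_of_lt_of_le hj2 (hN2 l))
      have h4 := hc y (h x (κ l + 1)) (b (h x (κ l + 1))) (hb2 _) ⟨a, ha, hlt⟩
      simp only [φ]
      rw [hj4, ← h4]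
      exact hb3 _ j (lt_of_lt_of_le hj2 (hN2 l))

/-- basic neighbourhoods in the topology of pointwise convergence -/
lemma mem_nhds_cp {X : Set ℝ} {f : Cp X} {U : Set (Cp X)} (hU : U ∈ 𝓝 f) :
    ∃ (F : Finset X) (ε : ℝ), 0 < ε ∧ ∀ g : Cp X, (∀ x ∈ F, |g.1 x - f.1 x| < ε) → g ∈ U := by
  classical
  rw [nhds_subtype_eq_comap, Filter.mem_comap] at hU
  obtain ⟨V, hV, hVU⟩ := hU
  rw [nhds_pi, Filter.mem_pi] at hV
  obtain ⟨I, hI, t, ht, htV⟩ := hV
  have h1 : ∀ x : X, ∃ ε > 0, ∀ r : ℝ, |r - f.1 x| < ε → r ∈ t x := by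
    intro x
    obtain ⟨ε, hε, hb⟩ := Metric.mem_nhds_iff.1 (ht x)
    exact ⟨ε, hε, fun r hr => hb (by rwa [Metric.mem_ball, Real.dist_eq])⟩
  choose ε hε0 hε using h1
  by_cases hne : hI.toFinset.Nonempty
  · obtain ⟨x0, -, hmin⟩ := Finset.exists_min_image hI.toFinset ε hne
    refine ⟨hI.toFinset, ε x0, hε0 x0, fun g hg => hVU (htV ?_)⟩
    intro x hx
    exact hε x _ (lt_of_lt_of_le (hg x (hI.mem_toFinset.2 hx)) (hmin x (hI.mem_toFinset.2 hx)))
  · refine ⟨∅, 1, one_pos, fun g _ => hVU (htV ?_)⟩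
    intro x hx
    exact absurd ⟨x, hI.mem_toFinset.2 hx⟩ hne

lemma nhds_cp {X : Set ℝ} (f : Cp X) (F : Finset X) {ε : ℝ} (hε : 0 < ε) :
    {g : Cp X | ∀ x ∈ F, |g.1 x - f.1 x| < ε} ∈ 𝓝 f := by
  have h : {g : Cp X | ∀ x ∈ F, |g.1 x - f.1 x| < ε} =
      ⋂ x ∈ F, (fun g : Cp X => g.1 x) ⁻¹' (Metric.ball (f.1 x) ε) := by
    ext g
    simp [Real.dist_eq]
  rw [h, Filter.biInter_finset_mem]
  intro x _
  apply ((continuous_apply x).comp continuous_subtype_val).continuousAt.preimage_mem_nhds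
  exact Metric.ball_mem_nhds _ hε

lemma tendsto_cp {X : Set ℝ} {u : ℕ → Cp X} {f : Cp X}
    (h : ∀ x, Tendsto (fun n => (u n).1 x) atTop (𝓝 (f.1 x))) : Tendsto u atTop (𝓝 f) := by
  rw [tendsto_subtype_rng, tendsto_pi_nhds]
  exact h

/-- a sequence in `A` converging to a point outside `A` gives a member of `GammaAt`. -/
lemma exists_gamma {X : Set ℝ} {A : Set (Cp X)} {f : Cp X} (hf : f ∉ A) {u : ℕ → Cp X}
    (huA : ∀ n, u n ∈ A) (hu : Tendsto u atTop (𝓝 f)) : ∃ B ∈ GammaAt f, B ⊆ A := by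
  have hinf : (range u).Infinite := by
    intro hfin
    have := hfin.isClosed.mem_of_tendsto hu (Eventually.of_forall fun n => mem_range_self n)
    obtain ⟨n, hn⟩ := this
    exact hf (hn ▸ huA n)
  refine ⟨range u, ⟨?_, hinf, ?_, ?_⟩, ?_⟩
  · exact le_antisymm (Cardinal.le_aleph0_iff_set_countable.2 (countable_range u))
      (Cardinal.infinite_iff.1 hinf.to_subtype)
  · rintro ⟨n, hn⟩
    exact hf (hn ▸ huA n)
  · intro U hU
    have := hu hU
    rw [mem_map, mem_atTop_sets] at this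
    obtain ⟨N, hN⟩ := this
    refine ((Finset.range N).finite_toSet.image u).subset ?_
    rintro _ ⟨⟨n, rfl⟩, hn⟩
    refine ⟨n, ?_, rfl⟩
    rw [Finset.mem_coe, Finset.mem_range]
    by_contra! hcon
    exact hn (hN n hcon)
  · rintro _ ⟨n, rfl⟩
    exact huA n


/-- A bump function equal to one on a finite set and zero away from it. -/
noncomputable def bump {X : Set ℝ} (A : Finset X) (δ : ℝ) (x : X) : ℝ :=
  1 - ∏ a ∈ A, min 1 (dist x a / δ)

lemma continuous_bump {X : Set ℝ} (A : Finset X) (δ : ℝ) : Continuous (bump A δ) := by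
  unfold bump
  refine continuous_const.sub (continuous_finsetProd _ fun a _ => ?_)
  exact continuous_const.min ((continuous_id.dist continuous_const).div_const _)

lemma bump_eq_one {X : Set ℝ} {A : Finset X} {δ : ℝ} {x : X} (hx : x ∈ A) : bump A δ x = 1 := by
  unfold bump
  rw [Finset.prod_eq_zero hx (by simp)]
  simp

lemma bump_eq_zero {X : Set ℝ} {A : Finset X} {δ : ℝ} (hδ : 0 < δ) {x : X}
    (hx : ∀ a ∈ A, δ ≤ dist x a) : bump A δ x = 0 := by
  unfold bump
  rw [Finset.prod_eq_one]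
  · simp
  · intro a ha
    rw [min_eq_left]
    rw [le_div_iff₀ hδ, one_mul]
    exact hx a ha

theorem kappaFrechet_of_lt {X : Set ℝ} (hX : Cardinal.mk X < nonM) : KappaFrechet (Cp X) := by
  classical
  rintro f A ⟨hf1, hf2⟩ hAo
  have key : ∀ (E : Finset X) (n : ℕ), ∃ (h : Cp X) (F : Finset X),
      (∀ x ∈ E, |h.1 x - f.1 x| < 1 / ((n : ℝ) + 1)) ∧
      ∀ g : Cp X, (∀ x ∈ F, g.1 x = h.1 x) → g ∈ A := by
    intro E n
    obtain ⟨h, hh1, hh2⟩ := mem_closure_iff_nhds.1 hf1 _
      (nhds_cp f E (ε := 1 / ((n : ℝ) + 1)) (by positivity))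
    obtain ⟨F, ε, hε, hF⟩ := mem_nhds_cp (hAo.mem_nhds hh2)
    refine ⟨h, F, hh1, fun g hg => hF g (fun x hx => ?_)⟩
    rw [hg x hx]
    simpa using hε
  choose h F hh hF using key
  let E : ℕ → Finset X := fun n => Nat.rec ∅ (fun k a => a ∪ F a k) n
  have hE : ∀ n, E (n + 1) = E n ∪ F (E n) n := fun n => rfl
  have hEm : Monotone E := monotone_nat_of_le_succ (fun n => by rw [hE]; exact Finset.subset_union_left)
  let D : ℕ → Finset X := fun n => F (E n) n \ E n
  have hD : Pairwise (fun m n => Disjoint (D m) (D n)) := by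
    have : ∀ m n, m < n → Disjoint (D m) (D n) := by
      intro m n hmn
      rw [Finset.disjoint_left]
      intro x hx hx'
      have h1 : x ∈ E (m + 1) := by
        rw [hE]
        exact Finset.mem_union_right _ (Finset.mem_sdiff.1 hx).1
      exact (Finset.mem_sdiff.1 hx').2 (hEm (Nat.succ_le_of_lt hmn) h1)
    intro m n hmn
    rcases lt_or_gt_of_ne hmn with h' | h'
    · exact this m n h'
    · exact (this n m h').symm
  obtain ⟨κ, hκ, δ, hδ, hsel⟩ := selection hX D hD
  -- the modified functions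
  let η : ℕ → ℝ := fun k => 1 / ((κ k : ℝ) + 1)
  have hη : ∀ k, 0 < η k := fun k => by positivity
  let v : ℕ → X → ℝ := fun k x => (h (E (κ k)) (κ k)).1 x - f.1 x
  let c : ℕ → X → ℝ := fun k x => max (-(η k)) (min (η k) (v k x))
  let w : ℕ → X → ℝ := fun k x => f.1 x + (c k x + bump (D (κ k)) (δ k) x * (v k x - c k x))
  have hvc : ∀ k, Continuous (v k) := fun k => (h (E (κ k)) (κ k)).2.sub f.2
  have hcc : ∀ k, Continuous (c k) := fun k =>
    continuous_const.max (continuous_const.min (hvc k))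
  have hwc : ∀ k, Continuous (w k) := fun k =>
    f.2.add ((hcc k).add ((continuous_bump _ _).mul ((hvc k).sub (hcc k))))
  have hcabs : ∀ k x, |c k x| ≤ η k := by
    intro k x
    have := (hη k).le
    rw [abs_le]
    exact ⟨le_max_left _ _, max_le (by linarith) (min_le_left _ _)⟩
  refine exists_gamma hf2 (u := fun k => ⟨w k, hwc k⟩) (fun k => ?_) ?_
  · apply hF (E (κ k)) (κ k)
    intro x hx
    rcases em (x ∈ E (κ k)) with hxE | hxE
    · have h1 : |v k x| < η k := hh (E (κ k)) (κ k) x hxE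
      have h2 : c k x = v k x := by
        rw [abs_lt] at h1
        simp only [c]
        rw [min_eq_right h1.2.le, max_eq_right h1.1.le]
      simp only [w, h2, v]
      ring
    · have h1 : bump (D (κ k)) (δ k) x = 1 := bump_eq_one (Finset.mem_sdiff.2 ⟨hx, hxE⟩)
      simp only [w, h1, v]
      ring
  · apply tendsto_cp
    intro x
    have h1 : ∀ᶠ k in atTop, |w k x - f.1 x| ≤ η k := by
      filter_upwards [hsel x] with k hk
      have h2 : bump (D (κ k)) (δ k) x = 0 := bump_eq_zero (hδ k) hk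
      have h3 : w k x - f.1 x = c k x := by
        simp only [w, h2]
        ring
      rw [h3]
      exact hcabs k x
    have h2 : Tendsto η atTop (𝓝 0) :=
      tendsto_one_div_add_atTop_nhds_zero_nat.comp hκ.tendsto_atTop
    have h3 : Tendsto (fun k => w k x - f.1 x) atTop (𝓝 0) := by
      rw [tendsto_zero_iff_abs_tendsto_zero]
      exact squeeze_zero' (Eventually.of_forall fun k => abs_nonneg _) h1 h2
    have h4 := h3.add_const (f.1 x)
    simpa using h4


/-- in an open set where `X` is dense, `X` has points outside any finite set. -/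
lemma exists_point {X : Set ℝ} {V : Set ℝ} (hV : IsOpen V) (hVX : V ⊆ closure X)
    (hne : V.Nonempty) (F : Finset X) : ∃ x : X, (x : ℝ) ∈ V ∧ x ∉ F := by
  classical
  have h1 : Dense (univ \ ((F.image Subtype.val : Finset ℝ) : Set ℝ)) :=
    dense_univ.sdiff_finset _
  obtain ⟨y, hyV, hy⟩ := h1.inter_open_nonempty V hV hne
  have hopen : IsOpen (V \ ((F.image Subtype.val : Finset ℝ) : Set ℝ)) :=
    hV.sdiff (Finset.finite_toSet _).isClosed
  obtain ⟨z, ⟨hz1, hz2⟩, hz3⟩ := mem_closure_iff.1 (hVX hyV) _ hopen ⟨hyV, hy.2⟩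
  refine ⟨⟨z, hz3⟩, hz1, fun h => hz2 ?_⟩
  rw [Finset.mem_coe, Finset.mem_image]
  exact ⟨_, h, rfl⟩

theorem not_kappaFrechet {X : Set ℝ} (hX : ¬ IsMeagre X) : ¬ KappaFrechet (Cp X) := by
  classical
  intro hK
  apply hX
  -- the open set in which X is dense
  set O : Set ℝ := interior (closure X) with hO
  have hOo : IsOpen O := isOpen_interior
  have hOX : O ⊆ closure X := interior_subset
  obtain ⟨bs, hbc, hbe, hbb⟩ := TopologicalSpace.exists_countable_basis ℝ
  have hbn : bs.Nonempty := by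
    by_contra h
    rw [not_nonempty_iff_eq_empty] at h
    have := hbb.sUnion_eq
    rw [h, sUnion_empty] at this
    have h0 : (0 : ℝ) ∈ (univ : Set ℝ) := trivial
    rw [← this] at h0
    exact h0
  obtain ⟨B, hB⟩ := hbc.exists_eq_range hbn
  have hBo : ∀ i, IsOpen (B i) := fun i => hbb.isOpen (hB ▸ mem_range_self i)
  have hBne : ∀ i, (B i).Nonempty := by
    intro i
    rw [nonempty_iff_ne_empty]
    intro h
    exact hbe (h ▸ hB ▸ mem_range_self i)
  have hinf : Infinite X := by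
    rw [← not_finite_iff_infinite]
    intro hfin
    exact hX (countable_meagre (Set.to_countable X))
  let q := Infinite.natEmbedding X
  let P : ℕ → Set (Cp X) := fun n =>
    {g | 1 < g.1 (q n)} ∩ ⋂ i ∈ Finset.range (n + 1), {g | B i ⊆ O → ∃ x : X, (x : ℝ) ∈ B i ∧ 1 < g.1 x}
  have hev : ∀ x : X, IsOpen {g : Cp X | 1 < g.1 x} := fun x =>
    isOpen_Ioi.preimage ((continuous_apply x).comp continuous_subtype_val)
  have hPo : ∀ n, IsOpen (P n) := by
    intro n
    refine (hev _).inter (isOpen_biInter_finset fun i _ => ?_)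
    by_cases hi : B i ⊆ O
    · have : {g : Cp X | B i ⊆ O → ∃ x : X, (x : ℝ) ∈ B i ∧ 1 < g.1 x} =
          ⋃ x ∈ {x : X | (x : ℝ) ∈ B i}, {g : Cp X | 1 < g.1 x} := by
        ext g
        simp [hi]
      rw [this]
      exact isOpen_biUnion fun x _ => hev x
    · have : {g : Cp X | B i ⊆ O → ∃ x : X, (x : ℝ) ∈ B i ∧ 1 < g.1 x} = univ := by
        ext g
        simp [hi]
      rw [this]
      exact isOpen_univ
  let f0 : Cp X := ⟨fun _ => 0, continuous_const⟩
  have h0A : f0 ∉ ⋃ n, P n := by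
    rw [mem_iUnion]
    rintro ⟨n, hn, -⟩
    have : (1 : ℝ) < 0 := hn
    linarith
  have hcl : f0 ∈ closure (⋃ n, P n) := by
    rw [mem_closure_iff_nhds]
    intro U hU
    obtain ⟨F, ε, hε, hF⟩ := mem_nhds_cp hU
    obtain ⟨n, hn⟩ : ∃ n, q n ∉ F := by
      by_contra! hcon
      exact (infinite_range_of_injective q.injective) ((F.finite_toSet).subset
        (range_subset_iff.2 hcon))
    have hx : ∀ i, ∃ x : X, x ∉ F ∧ (B i ⊆ O → (x : ℝ) ∈ B i) := by
      intro i
      by_cases hi : B i ⊆ O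
      · obtain ⟨x, hx1, hx2⟩ := exists_point (hBo i) (hi.trans hOX) (hBne i) F
        exact ⟨x, hx2, fun _ => hx1⟩
      · exact ⟨q n, hn, fun h => absurd h hi⟩
    choose x hx1 hx2 using hx
    let G : Finset X := insert (q n) ((Finset.range (n + 1)).image x)
    have hGF : ∀ a ∈ G, a ∉ F := by
      intro a ha
      rcases Finset.mem_insert.1 ha with rfl | ha
      · exact hn
      · obtain ⟨i, -, rfl⟩ := Finset.mem_image.1 ha
        exact hx1 i
    obtain ⟨δ, hδ, hsep⟩ := exists_sep (G ∪ F)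
    refine ⟨⟨fun y => 2 * bump G δ y, continuous_const.mul (continuous_bump G δ)⟩, ?_, ?_⟩
    · apply hF
      intro y hy
      have : bump G δ y = 0 := by
        apply bump_eq_zero hδ
        intro a ha
        have := hsep y (Finset.mem_union_right _ hy) a (Finset.mem_union_left _ ha)
          (fun h => hGF a ha (h ▸ hy))
        linarith
      simp only [this, f0]
      simpa using hε
    · rw [mem_iUnion]
      refine ⟨n, ?_, ?_⟩
      · have : bump G δ (q n) = 1 := bump_eq_one (Finset.mem_insert_self _ _)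
        simp only [mem_ofPred_eq, this]
        norm_num
      · rw [mem_iInter₂]
        intro i hi hBi
        have : bump G δ (x i) = 1 :=
          bump_eq_one (Finset.mem_insert_of_mem (Finset.mem_image_of_mem x hi))
        refine ⟨x i, hx2 i hBi, ?_⟩
        simp only [this]
        norm_num
  obtain ⟨C, ⟨hC1, hC2, hC3, hC4⟩, hCP⟩ := hK f0 _ ⟨hcl, h0A⟩ (isOpen_iUnion hPo)
  obtain ⟨e⟩ : Nonempty (ℕ ≃ C) := by
    rw [← Cardinal.eq]
    rw [hC1]
    exact Cardinal.mk_nat
  let u : ℕ → Cp X := fun k => (e k : Cp X)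
  have hu : Tendsto u atTop (𝓝 f0) := by
    rw [← Nat.cofinite_eq_atTop]
    intro U hU
    rw [mem_map, mem_cofinite]
    have h1 := hC4 U hU
    have h2 : u '' ((u ⁻¹' U)ᶜ) ⊆ C \ U := by
      rintro _ ⟨k, hk, rfl⟩
      exact ⟨(e k).2, hk⟩
    exact (h1.subset h2).of_finite_image
      (fun a _ b _ hab => e.injective (Subtype.ext hab))
  have hux : ∀ x : X, Tendsto (fun k => (u k).1 x) atTop (𝓝 0) := by
    intro x
    have := ((continuous_apply x).comp continuous_subtype_val).continuousAt (x := f0)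
    exact this.tendsto.comp hu
  have hN : ∀ k, ∃ n, u k ∈ P n := fun k => mem_iUnion.1 (hCP (e k).2)
  choose N hN using hN
  have hNt : Tendsto N atTop atTop := by
    rw [tendsto_atTop]
    intro b
    have h1 : ∀ᶠ k in atTop, ∀ n ∈ Finset.range b, (u k).1 (q n) < 1 := by
      rw [Filter.eventually_all_finset]
      intro n _
      exact (hux (q n)).eventually_lt_const one_pos
    filter_upwards [h1] with k hk
    by_contra! hlt
    have h2 := hk (N k) (Finset.mem_range.2 hlt)
    have h3 : 1 < (u k).1 (q (N k)) := (hN k).1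
    linarith
  have hW : ∀ k, ∃ W : Set ℝ, IsOpen W ∧ ∀ x : X, (x : ℝ) ∈ W ↔ 1 < (u k).1 x := by
    intro k
    have : IsOpen {x : X | 1 < (u k).1 x} := isOpen_Ioi.preimage (u k).2
    obtain ⟨W, hW1, hW2⟩ := isOpen_induced_iff.1 this
    exact ⟨W, hW1, fun x => by rw [← mem_preimage (f := Subtype.val), hW2]; rfl⟩
  choose W hWo hW using hW
  let G : ℕ → Set ℝ := fun m => ⋃ k ∈ {k | m ≤ k}, W k
  have hGo : ∀ m, IsOpen (G m) := fun m => isOpen_biUnion fun k _ => hWo k
  have hGd : ∀ m, Dense (G m ∪ (closure O)ᶜ) := by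
    intro m
    rw [dense_iff_inter_open]
    intro V hV hVne
    by_cases hVO : (V ∩ O).Nonempty
    · obtain ⟨y, hy⟩ := hVO
      obtain ⟨s, hs, hys, hsV⟩ := hbb.exists_subset_of_mem_open hy (hV.inter hOo)
      rw [hB] at hs
      obtain ⟨i, rfl⟩ := hs
      have h1 : ∀ᶠ k in atTop, i < N k := hNt.eventually_gt_atTop i
      obtain ⟨k, hk1, hk2⟩ := (h1.and (eventually_ge_atTop m)).exists
      have h2 := (hN k).2
      rw [mem_iInter₂] at h2
      obtain ⟨x, hx1, hx2⟩ := h2 i (Finset.mem_range.2 (by omega)) (fun z hz => (hsV hz).2)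
      refine ⟨x, (hsV hx1).1, Or.inl ?_⟩
      exact mem_biUnion (show k ∈ {k | m ≤ k} from hk2) ((hW k x).2 hx2)
    · rw [not_nonempty_iff_eq_empty, ← disjoint_iff_inter_eq_empty] at hVO
      obtain ⟨y, hy⟩ := hVne
      exact ⟨y, hy, Or.inr (fun h => disjoint_left.1 (hVO.closure_right hV) hy h)⟩
  have hXsub : X ⊆ frontier (closure X) ∪ ⋃ m, (G m ∪ (closure O)ᶜ)ᶜ := by
    intro x hx
    by_cases hxO : x ∈ O
    · right
      have h1 : ∀ᶠ k in atTop, (u k).1 ⟨x, hx⟩ < 1 := (hux ⟨x, hx⟩).eventually_lt_const one_pos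
      rw [eventually_atTop] at h1
      obtain ⟨m, hm⟩ := h1
      rw [mem_iUnion]
      refine ⟨m, ?_⟩
      rintro (h | h)
      · rw [mem_iUnion₂] at h
        obtain ⟨k, hk, hxk⟩ := h
        have h2 := hm k hk
        have h3 := (hW k ⟨x, hx⟩).1 hxk
        linarith
      · exact h (subset_closure hxO)
    · left
      rw [isClosed_closure.frontier_eq]
      exact ⟨subset_closure hx, hxO⟩
  refine IsMeagre.mono hXsub (IsMeagre.union ?_ (isMeagre_iUnion fun m => ?_))
  · apply IsNowhereDense.isMeagre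
    rw [IsClosed.isNowhereDense_iff isClosed_frontier]
    exact interior_frontier isClosed_closure
  · rw [IsMeagre, compl_compl]
    exact residual_of_dense_open ((hGo m).union isClosed_closure.isOpen_compl) (hGd m)

/-- The least cardinality of a set of reals `X` for which the space of continuous real functions
with the pointwise topology is not kappa-Frechet is the least cardinality of a nonmeagre set
of reals. -/
theorem result :
    IsLeast {c : Cardinal.{0} | ∃ X : Set ℝ, Cardinal.mk X = c ∧ ¬ KappaFrechet (Cp X)} nonM := by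
  constructor
  · obtain ⟨X, hX, hm⟩ := nonM_mem
    exact ⟨X, hX, not_kappaFrechet hm⟩
  · rintro c ⟨X, rfl, hX⟩
    by_contra! hlt
    exact hX (kappaFrechet_of_lt hlt)

end Pool.Agent.Results.MP_3edc48_gt.MinSizeNonM
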